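import Mathlib

set_option autoImplicit false

namespace Pool.Agent.X251.Branch

open List

/-- The binary rooted tree: its vertices are the finite binary words. -/
abbrev B := List Bool

/-- Swap of the first two letters. -/
def s : B → B
  | a :: b :: w => b :: a :: w
  | l => l

/-- Tree automorphisms of the binary tree acting on level two as a translation of `F_2 ^ 2`. -/
def L : Subgroup (Equiv.Perm B) where
  carrier := {g | (∀ v w, v <+: w ↔ g v <+: g w) ∧ (∀ v, (g v).length = v.length) ∧
    ∃ x y : Bool, ∀ a b, g [a, b] = [xor a x, xor b y]}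
  mul_mem' := by
    rintro g h ⟨g1, g2, x, y, g3⟩ ⟨h1, h2, x', y', h3⟩
    refine ⟨fun v w => ?_, fun v => ?_, xor x x', xor y y', fun a b => ?_⟩
    · rw [h1, g1]; rfl
    · rw [Equiv.Perm.mul_apply, g2, h2]
    · rw [Equiv.Perm.mul_apply, h3, g3]
      cases a <;> cases b <;> cases x <;> cases y <;> cases x' <;> cases y' <;> rfl
  one_mem' := by
    refine ⟨fun v w => Iff.rfl, fun v => rfl, false, false, fun a b => ?_⟩
    cases a <;> cases b <;> rfl
  inv_mem' := by
    rintro g ⟨g1, g2, x, y, g3⟩
    refine ⟨fun v w => ?_, fun v => ?_, x, y, fun a b => ?_⟩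
    · rw [g1 (g⁻¹ v) (g⁻¹ w)]; simp
    · rw [← g2 (g⁻¹ v)]; simp
    · apply g.injective
      rw [g3]; simp

theorem mem_L (g : Equiv.Perm B) : g ∈ L ↔ (∀ v w, v <+: w ↔ g v <+: g w) ∧
    (∀ v, (g v).length = v.length) ∧ ∃ x y : Bool, ∀ a b, g [a, b] = [xor a x, xor b y] := Iff.rfl

/-- translation by an infinite word -/
def tr (f : ℕ → Bool) : Equiv.Perm B where
  toFun v := v.mapIdx fun i b => xor b (f i)
  invFun v := v.mapIdx fun i b => xor b (f i)
  left_inv v := by
    apply List.ext_getElem
    · simp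
    · intro i h1 h2; simp
  right_inv v := by
    apply List.ext_getElem
    · simp
    · intro i h1 h2; simp

theorem tr_apply (f : ℕ → Bool) (v : B) : tr f v = v.mapIdx fun i b => xor b (f i) := rfl

theorem tr_prefix (f : ℕ → Bool) {v w : B} (h : v <+: w) : tr f v <+: tr f w := by
  obtain ⟨t, rfl⟩ := h
  rw [tr_apply, tr_apply, List.mapIdx_append]
  exact List.prefix_append _ _

theorem tr_inv (f : ℕ → Bool) (v : B) : tr f (tr f v) = v := (tr f).left_inv v

theorem tr_mem (f : ℕ → Bool) : tr f ∈ L := by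
  refine ⟨fun v w => ⟨tr_prefix f, fun h => ?_⟩, fun v => by simp [tr_apply], f 0, f 1, fun a b => ?_⟩
  · have := tr_prefix f h
    rwa [tr_inv, tr_inv] at this
  · simp [tr_apply]

theorem L_trans (v w : B) (h : v.length = w.length) : ∃ g ∈ L, g v = w := by
  refine ⟨tr fun i => xor (v.getD i false) (w.getD i false), tr_mem _, ?_⟩
  apply List.ext_getElem
  · simp [tr_apply, h]
  · intro i h1 h2
    have h3 : i < v.length := by simpa [tr_apply] using h1
    simp [tr_apply, h3, h2]

/-- level stabiliser property -/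
theorem fix_of_le {g : Equiv.Perm B} (hg : g ∈ L) {N : ℕ} (hN : ∀ v : B, v.length = N → g v = v)
    (v : B) (hv : v.length ≤ N) : g v = v := by
  obtain ⟨g1, g2, -⟩ := hg
  have h1 : v <+: v ++ List.replicate (N - v.length) false := List.prefix_append _ _
  have h2 := (g1 _ _).1 h1
  rw [hN (v ++ List.replicate (N - v.length) false) (by simp; omega)] at h2
  exact (List.prefix_of_prefix_length_le h2 h1 (le_of_eq (g2 v))).eq_of_length (g2 v)

theorem take_of_fix {g : Equiv.Perm B} (hg : g ∈ L) {N n : ℕ} (hn : n ≤ N)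
    (hN : ∀ v : B, v.length = N → g v = v) (v : B) : (g v).take n = v.take n := by
  have h1 : v.take n <+: v := List.take_prefix _ _
  have h2 := (hg.1 _ _).1 h1
  rw [fix_of_le hg hN (v.take n) (by simp; omega)] at h2
  have h3 := List.prefix_iff_eq_take.1 h2
  rw [h3, List.length_take]
  by_cases h : n ≤ v.length
  · rw [min_eq_left h]
  · rw [min_eq_right (by omega), List.take_of_length_le (by rw [hg.2.1]; omega),
      List.take_of_length_le (by rw [hg.2.1])]

open Classical in
/-- restriction of a level stabiliser element to a union of subtrees -/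
noncomputable def restr (g : Equiv.Perm B) (n : ℕ) (h : ∀ v : B, (g v).take n = v.take n) (S : Set B) :
    Equiv.Perm B where
  toFun v := if v.take n ∈ S then g v else v
  invFun v := if v.take n ∈ S then g⁻¹ v else v
  left_inv v := by
    by_cases hv : v.take n ∈ S
    · simp [hv, h v]
    · simp [hv]
  right_inv v := by
    have h' : (g (g⁻¹ v)).take n = (g⁻¹ v).take n := h (g⁻¹ v)
    have h'' : g (g⁻¹ v) = v := g.apply_symm_apply v
    rw [h''] at h'
    by_cases hv : v.take n ∈ S
    · simp only [hv, if_true]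
      rw [← h', if_pos hv]; exact h''
    · simp [hv]

open Classical in
theorem restr_apply (g : Equiv.Perm B) (n : ℕ) (h : ∀ v : B, (g v).take n = v.take n) (S : Set B) (v : B) :
    restr g n h S v = if v.take n ∈ S then g v else v := rfl

theorem restr_mem {g : Equiv.Perm B} (hg : g ∈ L) {N n : ℕ} (hn : n ≤ N) (hN2 : 2 ≤ N)
    (hN : ∀ v : B, v.length = N → g v = v) (S : Set B) :
    restr g n (take_of_fix hg hn hN) S ∈ L := by
  classical
  have hlen : ∀ v, (restr g n (take_of_fix hg hn hN) S v).length = v.length := by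
    intro v
    rw [restr_apply]; split_ifs
    · exact hg.2.1 v
    · rfl
  have hpre : ∀ (T : Set B) (g' : Equiv.Perm B) (hg' : g' ∈ L) (hN' : ∀ v : B, v.length = N → g' v = v) (v w : B), v <+: w →
      restr g' n (take_of_fix hg' hn hN') T v <+: restr g' n (take_of_fix hg' hn hN') T w := by
    intro T g' hg' hN' v w hvw
    by_cases hv : n ≤ v.length
    · have : v.take n = w.take n := by
        obtain ⟨t, rfl⟩ := hvw
        rw [List.take_append_of_le_length hv]
      rw [restr_apply, restr_apply, this]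
      split_ifs
      · exact (hg'.1 _ _).1 hvw
      · exact hvw
    · have h1 : g' v = v := fix_of_le hg' hN' v (by omega)
      have h2 : v <+: g' w := by
        have := (hg'.1 _ _).1 hvw
        rwa [h1] at this
      rw [restr_apply, restr_apply, h1, ite_self]
      split_ifs
      · exact h2
      · exact hvw
  have hinv : ∀ v, restr g⁻¹ n (take_of_fix (inv_mem hg) hn (fun v hv => by
      rw [Equiv.Perm.inv_eq_iff_eq, hN v hv])) S (restr g n (take_of_fix hg hn hN) S v) = v := by
    intro v
    rw [restr_apply, restr_apply]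
    by_cases hv : v.take n ∈ S
    · rw [if_pos hv, take_of_fix hg hn hN, if_pos hv]; simp
    · rw [if_neg hv, if_neg hv]
  refine ⟨fun v w => ⟨hpre S g hg hN v w, fun h => ?_⟩, hlen, false, false, fun a b => ?_⟩
  · have := hpre S g⁻¹ (inv_mem hg) (fun v hv => by
      rw [Equiv.Perm.inv_eq_iff_eq, hN v hv]) _ _ h
    rwa [hinv, hinv] at this
  · rw [restr_apply, fix_of_le hg hN [a, b] hN2, ite_self]; simp

/-- generators of the rigid stabiliser of level `n` -/
def rgen (n : ℕ) : Set (Equiv.Perm B) :=
  {g | g ∈ L ∧ ∃ u : B, u.length = n ∧ ∀ v : B, ¬ u <+: v → g v = v}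

theorem restr_single_mem {g : Equiv.Perm B} (hg : g ∈ L) {N n : ℕ} (hn : n ≤ N) (hN2 : 2 ≤ N)
    (hN : ∀ v : B, v.length = N → g v = v) (u : B) (hu : u.length = n) :
    restr g n (take_of_fix hg hn hN) {u} ∈ rgen n := by
  classical
  refine ⟨restr_mem hg hn hN2 hN _, u, hu, fun v hv => ?_⟩
  rw [restr_apply, if_neg]
  rintro (h : v.take n = u)
  exact hv (h ▸ List.take_prefix _ _)

theorem restr_mem_closure {g : Equiv.Perm B} (hg : g ∈ L) {N n : ℕ} (hn : n ≤ N) (hN2 : 2 ≤ N)
    (hN : ∀ v : B, v.length = N → g v = v) (S : Finset B) (hS : ∀ u ∈ S, u.length = n) :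
    restr g n (take_of_fix hg hn hN) (S : Set B) ∈ Subgroup.closure (rgen n) := by
  classical
  induction S using Finset.induction_on with
  | empty =>
    have : restr g n (take_of_fix hg hn hN) ((∅ : Finset B) : Set B) = 1 := by
      ext1 v; rw [restr_apply]; simp
    rw [this]; exact one_mem _
  | insert u S hu ih =>
    have h1 := ih fun v hv => hS v (Finset.mem_insert_of_mem hv)
    have h2 := Subgroup.subset_closure (restr_single_mem hg hn hN2 hN u (hS u (Finset.mem_insert_self _ _)))
    have h3 : restr g n (take_of_fix hg hn hN) ((insert u S : Finset B) : Set B) =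
        restr g n (take_of_fix hg hn hN) {u} * restr g n (take_of_fix hg hn hN) (S : Set B) := by
      ext1 v
      rw [Equiv.Perm.mul_apply, restr_apply, restr_apply, restr_apply]
      by_cases hv : v.take n ∈ (S : Set B)
      · have h5 : v.take n ≠ u := by rintro rfl; exact hu hv
        have h6 : v.take n ∈ ((insert u S : Finset B) : Set B) := by
          rw [Finset.coe_insert]; exact Set.mem_insert_of_mem _ hv
        have h7 : v.take n ∉ ({u} : Set B) := h5
        rw [if_pos h6, if_pos hv, take_of_fix hg hn hN, if_neg h7]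
      · rw [if_neg hv]
        by_cases h5 : v.take n ∈ ({u} : Set B)
        · have h6 : v.take n ∈ ((insert u S : Finset B) : Set B) := by
            rw [Finset.coe_insert]; exact Or.inl h5
          rw [if_pos h5, if_pos h6]
        · have h6 : v.take n ∉ ((insert u S : Finset B) : Set B) := by
            rw [Finset.coe_insert]; rintro (h7 | h7)
            · exact h5 h7
            · exact hv h7
          rw [if_neg h5, if_neg h6]
    rw [h3]; exact mul_mem h2 h1

theorem mem_closure_of_fix {g : Equiv.Perm B} (hg : g ∈ L) {N n : ℕ} (hn : n ≤ N) (hN2 : 2 ≤ N)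
    (hN : ∀ v : B, v.length = N → g v = v) : g ∈ Subgroup.closure (rgen n) := by
  classical
  have hfin : {l : B | l.length = n}.Finite := List.finite_length_eq Bool n
  have := restr_mem_closure hg hn hN2 hN hfin.toFinset (by simp)
  convert this using 1
  ext1 v
  rw [restr_apply]
  split_ifs with h
  · rfl
  · apply fix_of_le hg hN
    by_contra hc
    apply h
    simp; omega

/-- action on a level -/
def rho (N : ℕ) : L →* Equiv.Perm {v : B // v.length = N} where
  toFun g := g.1.subtypePerm fun v => by rw [g.2.2.1 v]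
  map_one' := by ext; rfl
  map_mul' g h := by ext; rfl

theorem index_ne (n : ℕ) : ((Subgroup.closure (rgen n)).subgroupOf L).index ≠ 0 := by
  have hfin : Finite {v : B // v.length = max n 2} := (List.finite_length_eq Bool (max n 2)).to_subtype
  have h1 : (rho (max n 2)).ker ≤ (Subgroup.closure (rgen n)).subgroupOf L := by
    intro g hg
    rw [Subgroup.mem_subgroupOf]
    refine mem_closure_of_fix g.2 (le_max_left n 2) (le_max_right n 2) fun v hv => ?_
    have := congrArg (fun p : Equiv.Perm {v : B // v.length = max n 2} => (p ⟨v, hv⟩).1) ((MonoidHom.mem_ker).1 hg)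
    exact this
  have h2 := Subgroup.finiteIndex_of_le h1
  exact h2.index_ne_zero

/-- The first letter `x` and second letter `y` of the translation. -/
def px (g : Equiv.Perm B) : Bool := (g [false, false]).getD 0 false
def py (g : Equiv.Perm B) : Bool := (g [false, false]).getD 1 false

theorem apply_two {g : Equiv.Perm B} (hg : g ∈ L) (a b : Bool) : g [a, b] = [xor a (px g), xor b (py g)] := by
  obtain ⟨-, -, x, y, h⟩ := hg
  have hx : px g = x := by simp [px, h]
  have hy : py g = y := by simp [py, h]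
  rw [h, hx, hy]

theorem apply_ge {g : Equiv.Perm B} (hg : g ∈ L) (a b : Bool) (w : B) :
    ∃ t, g (a :: b :: w) = xor a (px g) :: xor b (py g) :: t := by
  have h1 : [a, b] <+: a :: b :: w := ⟨w, rfl⟩
  have h2 := (hg.1 _ _).1 h1
  rw [apply_two hg] at h2
  obtain ⟨t, ht⟩ := h2
  exact ⟨t, ht.symm⟩

/-- The image of `g` under the exotic automorphism. -/
def F (g : Equiv.Perm B) : B → B
  | [] => []
  | [a] => [xor a (py g)]
  | a :: b :: w => s (g (b :: a :: w))

theorem F_ge {g : Equiv.Perm B} (hg : g ∈ L) (a b : Bool) (w : B) :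
    ∃ t, g (b :: a :: w) = xor b (px g) :: xor a (py g) :: t ∧
      F g (a :: b :: w) = xor a (py g) :: xor b (px g) :: t := by
  obtain ⟨t, ht⟩ := apply_ge hg b a w
  exact ⟨t, ht, by rw [F, ht]; rfl⟩

theorem px_mul {g h : Equiv.Perm B} (hg : g ∈ L) (hh : h ∈ L) : px (g * h) = xor (px g) (px h) := by
  rw [px, Equiv.Perm.mul_apply, apply_two hh, apply_two hg]; simp [Bool.xor_comm]

theorem py_mul {g h : Equiv.Perm B} (hg : g ∈ L) (hh : h ∈ L) : py (g * h) = xor (py g) (py h) := by
  rw [py, Equiv.Perm.mul_apply, apply_two hh, apply_two hg]; simp [Bool.xor_comm]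

theorem F_mul {g h : Equiv.Perm B} (hg : g ∈ L) (hh : h ∈ L) (v : B) : F (g * h) v = F g (F h v) := by
  match v with
  | [] => rfl
  | [a] => simp [F, py_mul hg hh, Bool.xor_comm (py g)]
  | a :: b :: w =>
    obtain ⟨t, ht, ht'⟩ := F_ge hh a b w
    rw [ht', F, F, Equiv.Perm.mul_apply, ht]

theorem F_one (v : B) : F 1 v = v := by
  match v with
  | [] => rfl
  | [a] => simp [F, py]
  | a :: b :: w => rfl

/-- `F g` as a permutation -/
def Fe (g : Equiv.Perm B) (hg : g ∈ L) : Equiv.Perm B where
  toFun := F g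
  invFun := F g⁻¹
  left_inv v := by rw [← F_mul (inv_mem hg) hg, inv_mul_cancel, F_one]
  right_inv v := by rw [← F_mul hg (inv_mem hg), mul_inv_cancel, F_one]

theorem F_length {g : Equiv.Perm B} (hg : g ∈ L) (v : B) : (F g v).length = v.length := by
  match v with
  | [] => rfl
  | [a] => rfl
  | a :: b :: w =>
    obtain ⟨t, ht, ht'⟩ := F_ge hg a b w
    have := hg.2.1 (b :: a :: w)
    rw [ht] at this
    rw [ht']; simpa using this

theorem F_prefix {g : Equiv.Perm B} (hg : g ∈ L) {v w : B} (h : v <+: w) : F g v <+: F g w := by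
  obtain ⟨t, rfl⟩ := h
  match v with
  | [] => exact List.nil_prefix
  | [a] =>
    match t with
    | [] => exact List.prefix_refl _
    | b :: t =>
      obtain ⟨t', ht, ht'⟩ := F_ge hg a b t
      have : [a] ++ b :: t = a :: b :: t := rfl
      rw [this, ht']
      exact ⟨_, rfl⟩
  | a :: b :: w =>
    have h1 : b :: a :: w <+: b :: a :: (w ++ t) := ⟨t, rfl⟩
    have h2 := (hg.1 _ _).1 h1
    have h3 : (a :: b :: w) ++ t = a :: b :: (w ++ t) := rfl
    obtain ⟨t1, h4, h5⟩ := F_ge hg a b w
    obtain ⟨t2, h6, h7⟩ := F_ge hg a b (w ++ t)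
    rw [h4, h6] at h2
    rw [h3, h5, h7]
    obtain ⟨r, hr⟩ := h2
    have : t1 ++ r = t2 := by simpa using hr
    exact ⟨r, by simp [this]⟩

theorem Fe_mem {g : Equiv.Perm B} (hg : g ∈ L) : Fe g hg ∈ L := by
  refine ⟨fun v w => ⟨fun h => F_prefix hg h, fun h => ?_⟩, fun v => F_length hg v, py g, px g, fun a b => ?_⟩
  · have := F_prefix (inv_mem hg) h
    have h1 : ∀ v, F g⁻¹ (Fe g hg v) = v := (Fe g hg).left_inv
    rwa [h1, h1] at this
  · change F g [a, b] = _
    rw [F, apply_two hg]; rfl

theorem Fe_mul {g h : Equiv.Perm B} (hg : g ∈ L) (hh : h ∈ L) :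
    Fe (g * h) (mul_mem hg hh) = Fe g hg * Fe h hh := by
  ext1 v; exact F_mul hg hh v

theorem py_Fe {g : Equiv.Perm B} (hg : g ∈ L) : py (Fe g hg) = px g := by
  change (F g [false, false]).getD 1 false = px g
  rw [F, apply_two hg]; simp [s]

theorem Fe_Fe {g : Equiv.Perm B} (hg : g ∈ L) : Fe (Fe g hg) (Fe_mem hg) = g := by
  ext1 v
  change F (Fe g hg) v = g v
  match v with
  | [] => 
    have := hg.2.1 []
    exact (List.eq_nil_of_length_eq_zero this).symm
  | [a] =>
    have h1 : [a] <+: [a, false] := ⟨[false], rfl⟩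
    have h2 := (hg.1 _ _).1 h1
    have h3 := hg.2.1 [a]
    rw [apply_two hg] at h2
    rw [F, py_Fe]
    have h4 : [xor a (px g)] <+: [xor a (px g), xor false (py g)] := ⟨[xor false (py g)], rfl⟩
    exact ((List.prefix_of_prefix_length_le h4 h2 (by rw [h3]; simp)).eq_of_length (by rw [h3]; rfl))
  | a :: b :: w =>
    obtain ⟨t, ht, ht'⟩ := F_ge hg b a w
    rw [F]
    change s (F g (b :: a :: w)) = _
    rw [ht', ht]; rfl

/-- The exotic automorphism of `L`. -/
def phi : L ≃* L where
  toFun g := ⟨Fe g.1 g.2, Fe_mem g.2⟩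
  invFun g := ⟨Fe g.1 g.2, Fe_mem g.2⟩
  left_inv g := Subtype.ext (Fe_Fe g.2)
  right_inv g := Subtype.ext (Fe_Fe g.2)
  map_mul' g h := Subtype.ext (Fe_mul g.2 h.2)

/-- flip the third letter below the vertex `[c, d]` -/
def fl (c d : Bool) : B → B
  | a :: b :: e :: w => if a = c ∧ b = d then a :: b :: (!e) :: w else a :: b :: e :: w
  | l => l

theorem fl_fl (c d : Bool) (v : B) : fl c d (fl c d v) = v := by
  match v with
  | [] => rfl
  | [a] => rfl
  | [a, b] => rfl
  | a :: b :: e :: w =>
    by_cases h : a = c ∧ b = d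
    · simp [fl, h]
    · simp [fl, h]

theorem fl_prefix (c d : Bool) {v w : B} (h : v <+: w) : fl c d v <+: fl c d w := by
  obtain ⟨t, rfl⟩ := h
  match v with
  | [] => exact List.nil_prefix
  | [a] =>
    match t with
    | [] => exact List.prefix_refl _
    | [b] => exact ⟨_, rfl⟩
    | b :: e :: t =>
      change [a] <+: fl c d (a :: b :: e :: t)
      rw [fl]
      split_ifs <;> exact ⟨_, rfl⟩
  | [a, b] =>
    match t with
    | [] => exact List.prefix_refl _
    | e :: t =>
      change [a, b] <+: fl c d (a :: b :: e :: t)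
      rw [fl]
      split_ifs <;> exact ⟨_, rfl⟩
  | a :: b :: e :: w =>
    have : a :: b :: e :: w ++ t = a :: b :: e :: (w ++ t) := rfl
    rw [this, fl, fl]
    split_ifs <;> exact ⟨_, rfl⟩

/-- `fl` as a permutation -/
def fle (c d : Bool) : Equiv.Perm B := ⟨fl c d, fl c d, fl_fl c d, fl_fl c d⟩

theorem fle_mem (c d : Bool) : fle c d ∈ L := by
  refine ⟨fun v w => ⟨fun h => fl_prefix c d h, fun h => ?_⟩, fun v => ?_, false, false, fun a b => ?_⟩
  · have := fl_prefix c d h
    have h1 : ∀ v, fl c d (fle c d v) = v := fl_fl c d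
    rwa [h1, h1] at this
  · change (fl c d v).length = v.length
    match v with
    | [] => rfl
    | [a] => rfl
    | [a, b] => rfl
    | a :: b :: e :: w => rw [fl]; split_ifs <;> simp
  · change fl c d [a, b] = _
    rw [fl]
    · simp
    · simp

theorem phi_fle (c d : Bool) : Fe (fle c d) (fle_mem c d) = fle d c := by
  ext1 v
  change F (fle c d) v = fl d c v
  match v with
  | [] => rfl
  | [a] => 
    rw [F]
    simp [py, fle, fl]
  | [a, b] => rfl
  | a :: b :: e :: w =>
    rw [F]
    change s (fl c d (b :: a :: e :: w)) = _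
    rw [fl, fl]
    by_cases h : b = c ∧ a = d
    · rw [if_pos h, if_pos h.symm]; rfl
    · rw [if_neg h, if_neg (fun h' => h h'.symm)]; rfl

theorem moved (c d : Bool) {v : B} (h : fl c d v ≠ v) : [c, d] <+: v := by
  match v with
  | [] => exact absurd rfl h
  | [a] => exact absurd rfl h
  | [a, b] => exact absurd rfl h
  | a :: b :: e :: w =>
    by_cases h' : a = c ∧ b = d
    · obtain ⟨rfl, rfl⟩ := h'
      exact ⟨_, rfl⟩
    · exact absurd (by rw [fl, if_neg h']) h

theorem no_sigma : ¬ ∃ σ : Equiv.Perm B, (∀ v w, v <+: w ↔ σ v <+: σ w) ∧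
    ∀ g : L, ((phi g : L) : Equiv.Perm B) = σ * (g : Equiv.Perm B) * σ⁻¹ := by
  rintro ⟨σ, h1, h2⟩
  have key : ∀ c d : Bool, [d, c] <+: σ [c, d, false] := by
    intro c d
    apply moved
    intro h
    have h3 := h2 ⟨fle c d, fle_mem c d⟩
    have h4 : ((phi ⟨fle c d, fle_mem c d⟩ : L) : Equiv.Perm B) = fle d c := phi_fle c d
    rw [h4] at h3
    have h5 := congrArg (fun p : Equiv.Perm B => p (σ [c, d, false])) h3
    simp only [Equiv.Perm.mul_apply] at h5
    have h6 : fle d c (σ [c, d, false]) = σ [c, d, false] := h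
    rw [h6] at h5
    have h7 : σ⁻¹ (σ [c, d, false]) = [c, d, false] := σ.symm_apply_apply _
    rw [h7] at h5
    have h8 := σ.injective h5
    have h9 : (fle c d) [c, d, false] = [c, d, true] := by
      change fl c d [c, d, false] = _
      simp [fl]
    change _ = (fle c d) [c, d, false] at h8
    rw [h9] at h8
    simp at h8
  have k1 := key false false
  have k2 := key false true
  have m1 : σ [false] <+: σ [false, false, false] := (h1 _ _).1 ⟨_, rfl⟩
  have m2 : σ [false] <+: σ [false, true, false] := (h1 _ _).1 ⟨_, rfl⟩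
  have hnil : σ [false] = [] := by
    rcases hh : σ [false] with _ | ⟨a, l⟩
    · rfl
    · exfalso
      rw [hh] at m1 m2
      obtain ⟨r1, e1⟩ := k1
      obtain ⟨r2, e2⟩ := k2
      obtain ⟨q1, f1⟩ := m1
      obtain ⟨q2, f2⟩ := m2
      rw [← e1] at f1
      rw [← e2] at f2
      simp at f1 f2
      have := f1.1.symm.trans f2.1
      simp at this
  have m3 : σ [] <+: σ [false] := (h1 _ _).1 List.nil_prefix
  rw [hnil] at m3
  have h4 : σ [] = [] := List.prefix_nil.1 m3
  have := σ.injective (h4.trans hnil.symm)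
  simp at this

end Pool.Agent.X251.Branch
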