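import Pool.Agent.X251.HeisSum

set_option autoImplicit false

namespace Pool.Agent.X251.HeisRot

theorem lower {S : Finset Gp} (hS : Subgroup.closure (S : Set Gp) = ⊤) :
    ∃ L : ℕ, ∀ M : ℝ, ∃ N : ℕ, 1 ≤ N ∧ M * (N : ℝ) ^ 2 ≤ (autGrowth S (L * N) : ℝ) := by
  obtain ⟨l1, h1⟩ := exists_LenLE hS X
  obtain ⟨l2, h2⟩ := exists_LenLE hS Y
  obtain ⟨l3, h3⟩ := exists_LenLE hS Z
  refine ⟨2 * l1 + l2 + l3, fun M => ?_⟩
  obtain ⟨K, hK1, hK⟩ := primes_unbounded (2 * M)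
  refine ⟨K.factorial, Nat.factorial_pos K, ?_⟩
  have hsum := sum_gcd_ge K
  set N := K.factorial with hN
  have hNpos : 0 < N := Nat.factorial_pos K
  let F : Finset (Σ _ : ℕ × ℕ, ℕ) :=
    (Finset.Ioc N (2 * N) ×ˢ Finset.Ioc 0 N).sigma (fun ab => Finset.range (Nat.gcd ab.1 ab.2))
  have hcard : (F.card : ℝ) = ∑ a ∈ Finset.Ioc N (2 * N), ∑ b ∈ Finset.Ioc 0 N, (Nat.gcd a b : ℝ) := by
    simp only [F, Finset.card_sigma, Finset.card_range]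
    push_cast
    rw [Finset.sum_product]
  have hF : ∀ i ∈ F, (N < i.1.1 ∧ i.1.1 ≤ 2 * N) ∧ (0 < i.1.2 ∧ i.1.2 ≤ N) ∧ i.2 < Nat.gcd i.1.1 i.1.2 := by
    intro i hi
    simp only [F, Finset.mem_sigma, Finset.mem_product, Finset.mem_Ioc, Finset.mem_range] at hi
    exact ⟨hi.1.1, hi.1.2, hi.2⟩
  have hle : F.card ≤ autGrowth S ((2 * l1 + l2 + l3) * N) := by
    apply le_autGrowth F (fun i => E i.1.1 i.1.2 i.2)
    · intro i hi
      obtain ⟨⟨a1, a2⟩, ⟨b1, b2⟩, c⟩ := hF i hi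
      have hg : Nat.gcd i.1.1 i.1.2 ≤ i.1.2 := Nat.gcd_le_right _ b1
      have := ((h1.pow i.1.1).mul (h2.pow i.1.2)).mul (h3.pow i.2)
      refine this.mono ?_
      have e1 : l1 * i.1.1 ≤ l1 * (2 * N) := Nat.mul_le_mul_left _ a2
      have e2 : l2 * i.1.2 ≤ l2 * N := Nat.mul_le_mul_left _ b2
      have e3 : l3 * i.2 ≤ l3 * N := Nat.mul_le_mul_left _ (by omega)
      calc l1 * i.1.1 + l2 * i.1.2 + l3 * i.2 ≤ l1 * (2 * N) + l2 * N + l3 * N := by omega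
        _ = _ := by ring
    · intro i hi j hj φ hφ
      obtain ⟨⟨a1, a2⟩, ⟨b1, b2⟩, c⟩ := hF i hi
      obtain ⟨⟨a1', a2'⟩, ⟨b1', b2'⟩, c'⟩ := hF j hj
      obtain ⟨⟨a, b⟩, r⟩ := i
      obtain ⟨⟨a', b'⟩, r'⟩ := j
      obtain ⟨rfl, rfl, rfl⟩ := aut_inj φ b1 (by simp at *; omega) c b1' (by simp at *; omega) c' hφ
      rfl
  have hle' : (F.card : ℝ) ≤ (autGrowth S ((2 * l1 + l2 + l3) * N) : ℝ) := by exact_mod_cast hle
  rw [hcard] at hle'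
  have : M * (N : ℝ) ^ 2 ≤ ((N : ℝ) ^ 2 / 2) * (∑ p ∈ K.primesBelow, (1 : ℝ) / p) := by
    have hp : (0 : ℝ) ≤ (N : ℝ) ^ 2 / 2 := by positivity
    nlinarith [mul_le_mul_of_nonneg_left hK hp]
  linarith

theorem not_preceq_sq {S : Finset Gp} (hS : Subgroup.closure (S : Set Gp) = ⊤) {d : ℕ} (hd : d ≤ 2) :
    ¬ Preceq (autGrowth S) (fun n => n ^ d) := by
  rintro ⟨k, hk, h⟩
  obtain ⟨L, hL⟩ := lower hS
  obtain ⟨N, hN, h2⟩ := hL ((k : ℝ) * (k * L + k) ^ 2 + k + 1)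
  have h3 : autGrowth S (L * N) ≤ k * (k * (L * N) + k) ^ d + k := h (L * N)
  have h4 : (k * (L * N) + k) ^ d ≤ ((k * L + k) * N) ^ 2 := by
    calc (k * (L * N) + k) ^ d ≤ (k * (L * N) + k) ^ 2 := Nat.pow_le_pow_right (by omega) hd
      _ ≤ _ := by
        apply Nat.pow_le_pow_left
        nlinarith
  have h5 : autGrowth S (L * N) ≤ k * ((k * L + k) * N) ^ 2 + k := by
    refine h3.trans ?_
    have := Nat.mul_le_mul_left k h4
    omega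
  have h6 : (autGrowth S (L * N) : ℝ) ≤ k * ((k * L + k) * N) ^ 2 + k := by exact_mod_cast h5
  have hN' : (1 : ℝ) ≤ N := by exact_mod_cast hN
  have hN2 : (1 : ℝ) ≤ (N : ℝ) ^ 2 := by nlinarith
  have hk' : (1 : ℝ) ≤ k := by exact_mod_cast hk
  nlinarith

end Pool.Agent.X251.HeisRot
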