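import Pool.Agent.X251.HeisUpper
import Pool.Agent.X251.HeisLower

set_option autoImplicit false

namespace Pool.Agent.X251.HeisRot

open Gp

theorem bd_el {w1 w2 m : ℤ} (h1 : |w1| ≤ m) (h2 : |w2| ≤ m) : Bd m 0 (el w1 w2 0) :=
  ⟨h1, h2, by simp [el]⟩

theorem conj_z {m : ℕ} {g : Gp} (hg : Bd m ((m : ℤ) ^ 2 + m) g) {w1 w2 : ℤ} (h1 : |w1| ≤ m + 1)
    (h2 : |w2| ≤ m + 1) : |(el w1 w2 0 * g * (el w1 w2 0)⁻¹).z| ≤ 9 * ((m : ℤ) + 1) ^ 2 := by
  have hw := bd_el h1 h2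
  have := ((hw.mul hg).mul hw.inv).2.2
  have hm : (0 : ℤ) ≤ m := by positivity
  nlinarith

theorem conj_x (w1 w2 : ℤ) (g : Gp) :
    (el w1 w2 0 * g * (el w1 w2 0)⁻¹).x = g.x + w1 - (g.p * w1 - g.q * w2) := by
  simp [el]; ring

theorem conj_y (w1 w2 : ℤ) (g : Gp) :
    (el w1 w2 0 * g * (el w1 w2 0)⁻¹).y = g.y + w2 - (g.q * w1 + g.p * w2) := by
  simp [el]; ring

theorem mem_F1 {m : ℕ} {x y : ℤ} (hx : |x| ≤ m) (hy : |y| ≤ m) (hne : x ≠ 0 ∨ y ≠ 0) {r : ℕ}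
    (hr : r < 2 * Int.gcd x y) : el x y r ∈ F1 m := by
  classical
  set d := Int.gcd x y with hd
  have hd0 : 0 < d := by
    rcases hne with h | h
    · exact Int.gcd_pos_of_ne_zero_left _ h
    · exact Int.gcd_pos_of_ne_zero_right _ h
  obtain ⟨a, ha⟩ : (d : ℤ) ∣ x := Int.gcd_dvd_left x y
  obtain ⟨b, hb⟩ : (d : ℤ) ∣ y := Int.gcd_dvd_right x y
  have hd0' : (0 : ℤ) < d := by exact_mod_cast hd0
  have key : ∀ c : ℤ, |(d : ℤ) * c| ≤ m → -((m / d : ℕ) : ℤ) ≤ c ∧ c ≤ ((m / d : ℕ) : ℤ) := by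
    intro c hc
    rw [← abs_le, Int.natCast_div m d]
    rw [abs_mul, abs_of_pos hd0'] at hc
    rw [Int.le_ediv_iff_mul_le hd0']
    linarith
  have hdm : d ≤ m := by
    have key2 : ∀ c : ℤ, c ≠ 0 → |(d : ℤ) * c| ≤ m → d ≤ m := by
      intro c hc h
      rw [abs_mul, abs_of_pos hd0'] at h
      have : 1 ≤ |c| := Int.one_le_abs hc
      have : (d : ℤ) ≤ m := by nlinarith
      exact_mod_cast this
    rcases hne with h | h
    · refine key2 a ?_ (by rw [← ha]; exact hx)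
      rintro rfl; exact h (by rw [ha, mul_zero])
    · refine key2 b ?_ (by rw [← hb]; exact hy)
      rintro rfl; exact h (by rw [hb, mul_zero])
  rw [F1, Finset.mem_biUnion]
  refine ⟨d, Finset.mem_Icc.2 ⟨hd0, hdm⟩, ?_⟩
  rw [Finset.mem_image]
  refine ⟨(a, b, r), ?_, ?_⟩
  · simp only [Finset.mem_product, Finset.mem_range, Finset.mem_Icc]
    exact ⟨key a (by rw [← ha]; exact hx), key b (by rw [← hb]; exact hy), hr⟩
  · simp only; rw [← ha, ← hb]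

theorem cover {m : ℕ} {g : Gp} (hg : Bd m ((m : ℤ) ^ 2 + m) g) :
    ∃ w : Gp, w * g * w⁻¹ ∈ F1 m ∨ w * g * w⁻¹ ∈ F3 m := by
  obtain ⟨hx, hy, hz⟩ := id hg
  have hx' := abs_le.1 hx
  have hy' := abs_le.1 hy
  rcases unit_cases g.h with ⟨hp, hq⟩ | ⟨hp, hq⟩ | ⟨hp, hq⟩ | ⟨hp, hq⟩
  · by_cases hne : g.x ≠ 0 ∨ g.y ≠ 0
    · set d := Int.gcd g.x g.y with hd
      have hd0 : 0 < d := by
        rcases hne with h | h
        · exact Int.gcd_pos_of_ne_zero_left _ h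
        · exact Int.gcd_pos_of_ne_zero_right _ h
      have hbez := Int.gcd_eq_gcd_ab g.x g.y
      set u := Int.gcdA g.x g.y
      set v := Int.gcdB g.x g.y
      set k := g.z / (2 * d : ℕ) with hk
      have hdd : (0 : ℤ) < (2 * d : ℕ) := by exact_mod_cast (by omega : 0 < 2 * d)
      have hr0 := Int.emod_nonneg g.z hdd.ne'
      have hr1 := Int.emod_lt_of_pos g.z hdd
      have hdm := Int.emod_add_mul_ediv g.z (2 * d : ℕ)
      refine ⟨el (-k * v) (k * u) 0, Or.inl ?_⟩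
      have : el (-k * v) (k * u) 0 * g * (el (-k * v) (k * u) 0)⁻¹ =
          el g.x g.y ((g.z % (2 * d : ℕ)).toNat : ℕ) := by
        rw [Int.toNat_of_nonneg hr0]
        ext
        · rw [conj_x, hp, hq]; simp [el]
        · rw [conj_y, hp, hq]; simp [el]
        · simp only [mul_z, mul_x, mul_y, inv_x, inv_y, inv_z, mul_p, mul_q, el, hp, hq]
          rw [← hk] at hdm
          have hdm' : g.z % ((2 * d : ℕ) : ℤ) = g.z - 2 * (d : ℤ) * k := by
            have : ((2 * d : ℕ) : ℤ) * k = 2 * (d : ℤ) * k := by push_cast; ring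
            linarith
          rw [hdm']
          have hbez' : (d : ℤ) = g.x * u + g.y * v := hbez
          linear_combination 2 * k * hbez'
        · simp [el, hp, hq]
        · simp [el, hp, hq]
      rw [this]
      refine mem_F1 hx hy hne ?_
      omega
    · push Not at hne
      refine ⟨1, Or.inr ?_⟩
      rw [one_mul, inv_one, mul_one]
      exact mem_F3 (Or.inl hne.1) (Or.inl hne.2) (by nlinarith)
  · refine ⟨el (g.y - (g.x + g.y) / 2) (-((g.x + g.y) / 2)) 0, Or.inr ?_⟩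
    apply mem_F3
    · rw [conj_x, hp, hq]; omega
    · rw [conj_y, hp, hq]; omega
    · apply conj_z hg
      · rw [abs_le]; omega
      · rw [abs_le]; omega
  · refine ⟨el (-(g.x / 2)) (-(g.y / 2)) 0, Or.inr ?_⟩
    apply mem_F3
    · rw [conj_x, hp, hq]; omega
    · rw [conj_y, hp, hq]; omega
    · apply conj_z hg
      · rw [abs_le]; omega
      · rw [abs_le]; omega
  · refine ⟨el (-g.y - (g.x - g.y) / 2) ((g.x - g.y) / 2) 0, Or.inr ?_⟩
    apply mem_F3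
    · rw [conj_x, hp, hq]; omega
    · rw [conj_y, hp, hq]; omega
    · apply conj_z hg
      · rw [abs_le]; omega
      · rw [abs_le]; omega

theorem harm_sq (m : ℕ) : (∑ d ∈ Finset.Icc 1 m, (1 : ℝ) / d) ≤ m ∧ (∑ d ∈ Finset.Icc 1 m, (1 : ℝ) / d) ^ 2 ≤ 4 * m := by
  induction m with
  | zero => simp
  | succ m ih =>
    rw [Finset.sum_Icc_succ_top (by omega)]
    obtain ⟨h1, h2⟩ := ih
    set H := ∑ d ∈ Finset.Icc 1 m, (1 : ℝ) / d
    have hH : 0 ≤ H := Finset.sum_nonneg fun _ _ => by positivity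
    have hm : (0 : ℝ) ≤ m := by positivity
    have h3 : (1 : ℝ) / ((m + 1 : ℕ) : ℝ) ≤ 1 := by
      rw [div_le_one (by positivity)]; push_cast; linarith
    have h4 : (0 : ℝ) ≤ 1 / ((m + 1 : ℕ) : ℝ) := by positivity
    have h5 : H * (1 / ((m + 1 : ℕ) : ℝ)) ≤ 1 := by
      rw [mul_one_div, div_le_one (by positivity)]; push_cast; linarith
    set t := (1 : ℝ) / ((m + 1 : ℕ) : ℝ)
    constructor
    · push_cast; linarith
    · push_cast
      nlinarith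

theorem upper (S : Finset Gp) : ∃ B : ℕ, 1 ≤ B ∧ ∀ n : ℕ, (autGrowth S n : ℝ) ≤
    ((B * n : ℕ) + 1 : ℝ) ^ 2 * (18 * (∑ d ∈ Finset.Icc 1 (B * n), (1 : ℝ) / d) + 304) := by
  classical
  obtain ⟨B, hB, h⟩ := exists_bd S
  refine ⟨B, hB, fun n => ?_⟩
  have h1 : autGrowth S n ≤ (F1 (B * n) ∪ F3 (B * n)).card := by
    apply autGrowth_le
    intro g hg
    obtain ⟨w, hw⟩ := cover (ball_bd hB h n g hg)
    exact ⟨w, Finset.mem_union.2 hw⟩
  have h2 := card_F1 (B * n)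
  have h3 := card_F3 (B * n)
  have h4 := Finset.card_union_le (F1 (B * n)) (F3 (B * n))
  set m := B * n
  have h5 : (autGrowth S n : ℝ) ≤ ((F1 m).card : ℝ) + ((F3 m).card : ℝ) := by
    exact_mod_cast h1.trans h4
  have h6 : ((F3 m).card : ℝ) ≤ 304 * ((m : ℝ) + 1) ^ 2 := by exact_mod_cast h3
  set H := ∑ d ∈ Finset.Icc 1 m, (1 : ℝ) / d
  have hH : 0 ≤ H := Finset.sum_nonneg fun _ _ => by positivity
  have hm : (0 : ℝ) ≤ m := by positivity
  have h7 : (m : ℝ) ^ 2 ≤ ((m : ℝ) + 1) ^ 2 := by nlinarith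
  have h8 := mul_le_mul_of_nonneg_right h7 hH
  nlinarith

theorem polyBounded (S : Finset Gp) : PolyBounded (autGrowth S) := by
  obtain ⟨B, hB, h⟩ := upper S
  refine ⟨3, 322 + B, by omega, fun n => ?_⟩
  have h1 := h n
  have h2 := (harm_sq (B * n)).1
  have h3 : (autGrowth S n : ℝ) ≤ 322 * (((B * n : ℕ) : ℝ) + 1) ^ 3 := by
    set m := B * n
    have hm : (0 : ℝ) ≤ m := by positivity
    have h4 : (18 * (∑ d ∈ Finset.Icc 1 m, (1 : ℝ) / d) + 304) ≤ 322 * ((m : ℝ) + 1) := by linarith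
    have := mul_le_mul_of_nonneg_left h4 (by positivity : (0 : ℝ) ≤ ((m : ℝ) + 1) ^ 2)
    nlinarith
  have h4 : autGrowth S n ≤ 322 * (B * n + 1) ^ 3 := by exact_mod_cast h3
  refine h4.trans ?_
  have h5 : B * n + 1 ≤ (322 + B) * n + (322 + B) := by nlinarith
  have h6 := Nat.pow_le_pow_left h5 3
  calc 322 * (B * n + 1) ^ 3 ≤ (322 + B) * ((322 + B) * n + (322 + B)) ^ 3 := Nat.mul_le_mul (by omega) h6
    _ ≤ _ := Nat.le_add_right _ _

theorem not_cube_preceq (S : Finset Gp) {d : ℕ} (hd : 3 ≤ d) : ¬ Preceq (fun n => n ^ d) (autGrowth S) := by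
  rintro ⟨k, hk, h⟩
  obtain ⟨B, hB, hU⟩ := upper S
  -- choose a large integer
  set C : ℕ := k ^ 2 * 184832 * (B * k + 1) ^ 5 with hC
  set n : ℕ := 128 * C + 2 * k + 1 with hn
  have h1 : n ^ d ≤ k * autGrowth S (k * n + k) + k := h n
  have h2 : n ^ 3 ≤ n ^ d := Nat.pow_le_pow_right (by omega) hd
  have h3 : (n : ℝ) ^ 3 ≤ k * (autGrowth S (k * n + k) : ℝ) + k := by exact_mod_cast h2.trans h1
  have h4 := hU (k * n + k)
  have hn1 : (1 : ℝ) ≤ n := by exact_mod_cast (by omega : 1 ≤ n)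
  have hk1 : (1 : ℝ) ≤ k := by exact_mod_cast hk
  have hB1 : (1 : ℝ) ≤ B := by exact_mod_cast hB
  set m := B * (k * n + k) with hm
  have hm0 : (0 : ℝ) ≤ m := by positivity
  obtain ⟨_, h5⟩ := harm_sq m
  set H := ∑ d ∈ Finset.Icc 1 m, (1 : ℝ) / d
  have hH : 0 ≤ H := Finset.sum_nonneg fun _ _ => by positivity
  have h6 : (18 * H + 304) ^ 2 ≤ 184832 * ((m : ℝ) + 1) := by nlinarith [sq_nonneg (18 * H - 304)]
  have h7 : (autGrowth S (k * n + k) : ℝ) ^ 2 ≤ 184832 * ((m : ℝ) + 1) ^ 5 := by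
    have h8 : (autGrowth S (k * n + k) : ℝ) ^ 2 ≤ (((m : ℝ) + 1) ^ 2 * (18 * H + 304)) ^ 2 :=
      pow_le_pow_left₀ (by positivity) h4 2
    have h9 : (((m : ℝ) + 1) ^ 2 * (18 * H + 304)) ^ 2 = ((m : ℝ) + 1) ^ 4 * (18 * H + 304) ^ 2 := by ring
    have h10 := mul_le_mul_of_nonneg_left h6 (by positivity : (0 : ℝ) ≤ ((m : ℝ) + 1) ^ 4)
    nlinarith
  have h8 : (m : ℝ) + 1 ≤ ((B : ℝ) * k + 1) * (n + 1) := by
    rw [hm]; push_cast; nlinarith
  have h9 : ((m : ℝ) + 1) ^ 5 ≤ (((B : ℝ) * k + 1) * (n + 1)) ^ 5 := pow_le_pow_left₀ (by positivity) h8 5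
  have h10 : ((n : ℝ) + 1) ^ 5 ≤ (2 * n) ^ 5 := pow_le_pow_left₀ (by positivity) (by linarith) 5
  have hkn : 2 * (k : ℝ) ≤ n := by exact_mod_cast (by omega : 2 * k ≤ n)
  have hn3 : (n : ℝ) ≤ n ^ 3 := by nlinarith [sq_nonneg (n : ℝ)]
  have h11 : (n : ℝ) ^ 3 / 2 ≤ k * (autGrowth S (k * n + k) : ℝ) := by linarith
  have h12 : ((n : ℝ) ^ 3 / 2) ^ 2 ≤ (k * (autGrowth S (k * n + k) : ℝ)) ^ 2 :=
    pow_le_pow_left₀ (by positivity) h11 2
  have h13 : (k * (autGrowth S (k * n + k) : ℝ)) ^ 2 ≤ (C : ℝ) * (2 * n) ^ 5 := by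
    calc (k * (autGrowth S (k * n + k) : ℝ)) ^ 2 = (k : ℝ) ^ 2 * (autGrowth S (k * n + k) : ℝ) ^ 2 := by ring
      _ ≤ (k : ℝ) ^ 2 * (184832 * ((m : ℝ) + 1) ^ 5) := mul_le_mul_of_nonneg_left h7 (by positivity)
      _ ≤ (k : ℝ) ^ 2 * (184832 * (((B : ℝ) * k + 1) * (n + 1)) ^ 5) := by gcongr
      _ = ((k : ℝ) ^ 2 * 184832 * ((B : ℝ) * k + 1) ^ 5) * ((n : ℝ) + 1) ^ 5 := by ring
      _ ≤ ((k : ℝ) ^ 2 * 184832 * ((B : ℝ) * k + 1) ^ 5) * (2 * n) ^ 5 :=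
          mul_le_mul_of_nonneg_left h10 (by positivity)
      _ = (C : ℝ) * (2 * n) ^ 5 := by rw [hC]; push_cast; ring
  have h14 : ((n : ℝ) ^ 3 / 2) ^ 2 ≤ (C : ℝ) * (2 * n) ^ 5 := h12.trans h13
  have h15 : (n : ℝ) ^ 5 * n ≤ (n : ℝ) ^ 5 * (128 * C) := by nlinarith
  have h16 : (n : ℝ) ≤ 128 * C := le_of_mul_le_mul_left h15 (by positivity)
  have h17 : n ≤ 128 * C := by exact_mod_cast h16
  omega

theorem gen : Subgroup.closure (({X, Y, Z, R} : Set Gp)) = ⊤ := by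
  rw [eq_top_iff]
  intro g _
  set H := Subgroup.closure (({X, Y, Z, R} : Set Gp)) with hH
  have hX : X ∈ H := Subgroup.subset_closure (by simp)
  have hY : Y ∈ H := Subgroup.subset_closure (by simp)
  have hZ : Z ∈ H := Subgroup.subset_closure (by simp)
  have hR : R ∈ H := Subgroup.subset_closure (by simp)
  have powZ : ∀ (x y z t : ℤ), (el x y z) ^ t = el (t * x) (t * y) (t * z) := by
    intro x y z t
    cases t with
    | ofNat n =>
      change (el x y z) ^ (n : ℤ) = _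
      rw [zpow_natCast, pow_el]; rfl
    | negSucc n =>
      rw [zpow_negSucc, pow_el]
      ext <;> simp [el] <;> rw [Int.negSucc_eq] <;> ring
  obtain ⟨i, _, h1, h2, h3, h4, h5⟩ := R_pow_cases g.h
  have hg : g = X ^ g.x * Y ^ g.y * Z ^ (g.z - g.x * g.y) * R ^ i := by
    have e1 : X = el 1 0 0 := rfl
    have e2 : Y = el 0 1 0 := rfl
    have e3 : Z = el 0 0 1 := rfl
    rw [e1, e2, e3, powZ, powZ, powZ, el_mul, el_mul]
    ext
    · simp [el, h1]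
    · simp [el, h2]
    · simp [el, h1, h2, h3]
    · simp [el, h4]
    · simp [el, h5]
  rw [hg]
  exact H.mul_mem (H.mul_mem (H.mul_mem (H.zpow_mem hX _) (H.zpow_mem hY _)) (H.zpow_mem hZ _)) (H.pow_mem hR _)

/-- **Main theorem.** -/
theorem main : ∃ (G : Type) (_ : Group G), (∃ S : Finset G, Subgroup.closure (S : Set G) = ⊤) ∧
    ∀ S : Finset G, Subgroup.closure (S : Set G) = ⊤ →
      PolyBounded (autGrowth S) ∧ ¬ IsPolynomial (autGrowth S) := by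
  classical
  refine ⟨Gp, inferInstance, ⟨{X, Y, Z, R}, by simpa using gen⟩, fun S hS => ⟨polyBounded S, ?_⟩⟩
  rintro ⟨d, h1, h2⟩
  rcases Nat.lt_or_ge d 3 with hd | hd
  · exact not_preceq_sq hS (by omega) h1
  · exact not_cube_preceq S hd h2

end Pool.Agent.X251.HeisRot
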