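import Pool.Agent.X251.HeisRot

set_option autoImplicit false

namespace Pool.Agent.X251.HeisRot

open scoped Pointwise

section general
variable {G : Type} [Group G]

theorem LenLE.mono {S : Finset G} {n m : ℕ} {g : G} (h : LenLE S n g) (hnm : n ≤ m) : LenLE S m g := by
  obtain ⟨l, h1, h2, h3⟩ := h
  exact ⟨l, h1.trans hnm, h2, h3⟩

theorem LenLE.one (S : Finset G) (n : ℕ) : LenLE S n 1 := ⟨[], by simp, by simp, by simp⟩

theorem LenLE.mul {S : Finset G} {n m : ℕ} {g h : G} (hg : LenLE S n g) (hh : LenLE S m h) :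
    LenLE S (n + m) (g * h) := by
  obtain ⟨l, h1, h2, h3⟩ := hg
  obtain ⟨l', h1', h2', h3'⟩ := hh
  refine ⟨l ++ l', by simp; omega, ?_, by simp [h3, h3']⟩
  intro x hx
  rcases List.mem_append.1 hx with hx | hx
  · exact h2 x hx
  · exact h2' x hx

theorem LenLE.inv {S : Finset G} {n : ℕ} {g : G} (hg : LenLE S n g) : LenLE S n g⁻¹ := by
  obtain ⟨l, h1, h2, h3⟩ := hg
  refine ⟨(l.map (·⁻¹)).reverse, by simpa using h1, ?_, ?_⟩
  · intro x hx
    simp only [List.mem_reverse, List.mem_map] at hx
    obtain ⟨y, hy, rfl⟩ := hx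
    rcases h2 y hy with h | h
    · exact Or.inr (by simpa using h)
    · exact Or.inl h
  · rw [← List.prod_inv_reverse, h3]

theorem LenLE.pow {S : Finset G} {n : ℕ} {g : G} (hg : LenLE S n g) (k : ℕ) : LenLE S (n * k) (g ^ k) := by
  induction k with
  | zero => simpa using LenLE.one S 0
  | succ k ih => rw [pow_succ, Nat.mul_succ]; exact ih.mul hg

theorem exists_LenLE {S : Finset G} (hS : Subgroup.closure (S : Set G) = ⊤) (g : G) : ∃ n, LenLE S n g := by
  have hg : g ∈ Subgroup.closure (S : Set G) := by rw [hS]; trivial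
  induction hg using Subgroup.closure_induction with
  | mem x hx => exact ⟨1, [x], by simp, by simp; exact Or.inl (by simpa using hx), by simp⟩
  | one => exact ⟨0, LenLE.one S 0⟩
  | mul x y _ _ ihx ihy =>
    obtain ⟨n, hn⟩ := ihx
    obtain ⟨m, hm⟩ := ihy
    exact ⟨n + m, hn.mul hm⟩
  | inv x _ ih =>
    obtain ⟨n, hn⟩ := ih
    exact ⟨n, hn.inv⟩

theorem ball_finite (S : Finset G) (n : ℕ) : {g : G | LenLE S n g}.Finite := by
  classical
  induction n with
  | zero =>
    refine (Set.finite_singleton (1 : G)).subset ?_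
    rintro g ⟨l, h1, h2, h3⟩
    have : l = [] := List.length_eq_zero_iff.1 (Nat.le_zero.1 h1)
    subst this
    simpa using h3.symm
  | succ n ih =>
    have hT : (S : Set G).Finite := S.finite_toSet
    have hfin : (({1} ∪ (S : Set G) ∪ (S : Set G)⁻¹) * {g : G | LenLE S n g}).Finite :=
      (((Set.finite_singleton (1 : G)).union hT).union hT.inv).mul ih
    refine hfin.subset ?_
    rintro g ⟨l, h1, h2, h3⟩
    cases l with
    | nil =>
      exact ⟨1, by simp, 1, LenLE.one S n, by simpa using h3⟩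
    | cons a l =>
      refine ⟨a, ?_, l.prod, ⟨l, by simpa using h1, fun x hx => h2 x (List.mem_cons_of_mem _ hx), rfl⟩,
        by simpa using h3⟩
      rcases h2 a List.mem_cons_self with h | h
      · exact Or.inl (Or.inr h)
      · exact Or.inr (by simpa using h)

theorem orbits_finite (S : Finset G) (n : ℕ) :
    {O : Set G | ∃ g, LenLE S n g ∧ O = MulAction.orbit (MulAut G) g}.Finite := by
  refine ((ball_finite S n).image (fun g => MulAction.orbit (MulAut G) g)).subset ?_
  rintro O ⟨g, hg, rfl⟩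
  exact ⟨g, hg, rfl⟩

theorem autGrowth_le {S : Finset G} {n : ℕ} (F : Finset G)
    (h : ∀ g, LenLE S n g → ∃ w : G, w * g * w⁻¹ ∈ F) : autGrowth S n ≤ F.card := by
  classical
  have hsub : {O : Set G | ∃ g, LenLE S n g ∧ O = MulAction.orbit (MulAut G) g} ⊆
      ((F : Set G).image (fun g => MulAction.orbit (MulAut G) g)) := by
    rintro O ⟨g, hg, rfl⟩
    obtain ⟨w, hw⟩ := h g hg
    refine ⟨w * g * w⁻¹, hw, ?_⟩
    have : w * g * w⁻¹ = (MulAut.conj w) • g := by simp
    dsimp only
    rw [this, MulAction.orbit_smul]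
  calc autGrowth S n ≤ ((F : Set G).image (fun g => MulAction.orbit (MulAut G) g)).ncard :=
        Set.ncard_le_ncard hsub (F.finite_toSet.image _)
    _ ≤ (F : Set G).ncard := Set.ncard_image_le F.finite_toSet
    _ = F.card := Set.ncard_coe_finset F

theorem le_autGrowth {ι : Type} {S : Finset G} {n : ℕ} (F : Finset ι) (f : ι → G)
    (h : ∀ i ∈ F, LenLE S n (f i))
    (hinj : ∀ i ∈ F, ∀ j ∈ F, ∀ φ : G ≃* G, φ (f i) = f j → i = j) : F.card ≤ autGrowth S n := by
  classical
  have hinj' : Set.InjOn (fun i => MulAction.orbit (MulAut G) (f i)) (F : Set ι) := by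
    intro i hi j hj hij
    have : f j ∈ MulAction.orbit (MulAut G) (f i) := by
      dsimp only at hij
      rw [hij]; exact MulAction.mem_orbit_self _
    obtain ⟨φ, hφ⟩ := this
    exact hinj i hi j hj φ hφ
  calc F.card = (F : Set ι).ncard := (Set.ncard_coe_finset F).symm
    _ = ((fun i => MulAction.orbit (MulAut G) (f i)) '' (F : Set ι)).ncard := hinj'.ncard_image.symm
    _ ≤ autGrowth S n := by
      refine Set.ncard_le_ncard ?_ (orbits_finite S n)
      rintro O ⟨i, hi, rfl⟩
      exact ⟨f i, h i hi, rfl⟩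

end general

end Pool.Agent.X251.HeisRot
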