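import Mathlib

set_option autoImplicit false

namespace Pool.Agent.X251.HeisRot

/-! ### Definitions used in the statement -/

/-- `|g|_S ≤ n`: the element `g` is a product of at most `n` elements of `S ∪ S⁻¹`. -/
def LenLE {G : Type} [Group G] (S : Finset G) (n : ℕ) (g : G) : Prop :=
  ∃ l : List G, l.length ≤ n ∧ (∀ x ∈ l, x ∈ S ∨ x⁻¹ ∈ S) ∧ l.prod = g

/-- The automorphic growth function: the number of orbits of `Aut G` containing an element of length at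
most `n`. -/
noncomputable def autGrowth {G : Type} [Group G] (S : Finset G) (n : ℕ) : ℕ :=
  Set.ncard {O : Set G | ∃ g, LenLE S n g ∧ O = MulAction.orbit (MulAut G) g}

/-- The preorder `f ≼ g` on growth functions. -/
def Preceq (f g : ℕ → ℕ) : Prop := ∃ k : ℕ, 1 ≤ k ∧ ∀ n, f n ≤ k * g (k * n + k) + k

/-- Polynomially bounded growth functions. -/
def PolyBounded (f : ℕ → ℕ) : Prop := ∃ d : ℕ, Preceq f fun n => n ^ d

/-- Growth functions equivalent to `n ^ k` for some `k ≥ 0`. -/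
def IsPolynomial (f : ℕ → ℕ) : Prop := ∃ k : ℕ, Preceq f (fun n => n ^ k) ∧ Preceq (fun n => n ^ k) f

/-! ### The group -/

/-- The group: `(x, y)` in the plane lattice, `z` the central coordinate, `(p, q)` a Gaussian unit. -/
@[ext] structure Gp where
  x : ℤ
  y : ℤ
  z : ℤ
  p : ℤ
  q : ℤ
  h : p ^ 2 + q ^ 2 = 1

namespace Gp

instance : Mul Gp := ⟨fun a b => ⟨a.x + (a.p * b.x - a.q * b.y), a.y + (a.q * b.x + a.p * b.y),
  a.z + b.z + (a.x * (a.q * b.x + a.p * b.y) - a.y * (a.p * b.x - a.q * b.y)),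
  a.p * b.p - a.q * b.q, a.p * b.q + a.q * b.p, by
    have h1 := a.h
    have h2 := b.h
    linear_combination (b.p ^ 2 + b.q ^ 2) * h1 + h2⟩⟩

instance : One Gp := ⟨⟨0, 0, 0, 1, 0, by norm_num⟩⟩

instance : Inv Gp := ⟨fun a => ⟨-(a.p * a.x + a.q * a.y), -(-a.q * a.x + a.p * a.y), -a.z, a.p, -a.q, by
  have := a.h; linear_combination this⟩⟩

@[simp] theorem mul_x (a b : Gp) : (a * b).x = a.x + (a.p * b.x - a.q * b.y) := rfl
@[simp] theorem mul_y (a b : Gp) : (a * b).y = a.y + (a.q * b.x + a.p * b.y) := rfl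
@[simp] theorem mul_z (a b : Gp) : (a * b).z =
  a.z + b.z + (a.x * (a.q * b.x + a.p * b.y) - a.y * (a.p * b.x - a.q * b.y)) := rfl
@[simp] theorem mul_p (a b : Gp) : (a * b).p = a.p * b.p - a.q * b.q := rfl
@[simp] theorem mul_q (a b : Gp) : (a * b).q = a.p * b.q + a.q * b.p := rfl
@[simp] theorem one_x : (1 : Gp).x = 0 := rfl
@[simp] theorem one_y : (1 : Gp).y = 0 := rfl
@[simp] theorem one_z : (1 : Gp).z = 0 := rfl
@[simp] theorem one_p : (1 : Gp).p = 1 := rfl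
@[simp] theorem one_q : (1 : Gp).q = 0 := rfl
@[simp] theorem inv_x (a : Gp) : (a⁻¹).x = -(a.p * a.x + a.q * a.y) := rfl
@[simp] theorem inv_y (a : Gp) : (a⁻¹).y = -(-a.q * a.x + a.p * a.y) := rfl
@[simp] theorem inv_z (a : Gp) : (a⁻¹).z = -a.z := rfl
@[simp] theorem inv_p (a : Gp) : (a⁻¹).p = a.p := rfl
@[simp] theorem inv_q (a : Gp) : (a⁻¹).q = -a.q := rfl

instance : Group Gp := Group.ofLeftAxioms
  (by
    intro a b c
    have h1 := a.h
    ext
    · simp; ring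
    · simp; ring
    · simp only [mul_x, mul_y, mul_z, mul_p, mul_q]
      linear_combination ((b.x * (b.q * c.x + b.p * c.y) - b.y * (b.p * c.x - b.q * c.y))) * h1
    · simp; ring
    · simp; ring)
  (by
    intro a
    ext <;> simp)
  (by
    intro a
    have h1 := a.h
    ext
    · simp
    · simp
    · simp only [mul_z, inv_x, inv_y, inv_z, inv_p, inv_q, one_z]; ring
    · simp only [mul_p, inv_p, inv_q, one_p]; linear_combination h1
    · simp only [mul_q, inv_p, inv_q, one_q]; ring)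

end Gp

open Gp

/-- generators -/
def X : Gp := ⟨1, 0, 0, 1, 0, by norm_num⟩
def Y : Gp := ⟨0, 1, 0, 1, 0, by norm_num⟩
def Z : Gp := ⟨0, 0, 1, 1, 0, by norm_num⟩
def R : Gp := ⟨0, 0, 0, 0, 1, by norm_num⟩

/-- elements of the normal nilpotent subgroup -/
def el (x y z : ℤ) : Gp := ⟨x, y, z, 1, 0, by norm_num⟩

theorem pow_el (x y z : ℤ) (n : ℕ) : (el x y z) ^ n = el (n * x) (n * y) (n * z) := by
  induction n with
  | zero => ext <;> simp [el]
  | succ n ih =>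
    rw [pow_succ, ih]
    ext
    · simp [el]; ring
    · simp [el]; ring
    · simp [el]; ring
    · simp [el]
    · simp [el]

theorem el_mul (x y z x' y' z' : ℤ) :
    el x y z * el x' y' z' = el (x + x') (y + y') (z + z' + (x * y' - y * x')) := by
  ext <;> simp [el]

theorem eq_el {g : Gp} (hp : g.p = 1) (hq : g.q = 0) : g = el g.x g.y g.z := by
  ext <;> simp [el, hp, hq]

theorem central_iff (c : Gp) : (∀ g, c * g = g * c) ↔ c.x = 0 ∧ c.y = 0 ∧ c.p = 1 ∧ c.q = 0 := by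
  constructor
  · intro h
    have hX := h X
    have hY := h Y
    have h1 := congrArg Gp.x hX
    have h2 := congrArg Gp.y hX
    have h3 := congrArg Gp.z hX
    have h4 := congrArg Gp.z hY
    simp [X, Y] at h1 h2 h3 h4
    have hp : c.p = 1 := by linarith
    have hq : c.q = 0 := by linarith
    rw [hp, hq] at h3 h4
    exact ⟨by linarith, by linarith, hp, hq⟩
  · rintro ⟨h1, h2, h3, h4⟩ g
    ext <;> simp [h1, h2, h3, h4] <;> ring

theorem unit_cases {p q : ℤ} (h : p ^ 2 + q ^ 2 = 1) :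
    (p = 1 ∧ q = 0) ∨ (p = 0 ∧ q = 1) ∨ (p = -1 ∧ q = 0) ∨ (p = 0 ∧ q = -1) := by
  have h1 : -1 ≤ p := by nlinarith
  have h2 : p ≤ 1 := by nlinarith
  have h3 : -1 ≤ q := by nlinarith
  have h4 : q ≤ 1 := by nlinarith
  interval_cases p <;> interval_cases q <;> simp_all

theorem pow_four_central {g : Gp} (h : ¬ (g.p = 1 ∧ g.q = 0)) : ∀ k, g ^ 4 * k = k * g ^ 4 := by
  rw [central_iff]
  obtain ⟨x, y, z, p, q, hpq⟩ := g
  rcases unit_cases hpq with ⟨rfl, rfl⟩ | ⟨rfl, rfl⟩ | ⟨rfl, rfl⟩ | ⟨rfl, rfl⟩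
  · exact absurd ⟨rfl, rfl⟩ h
  all_goals
    simp only [pow_succ, pow_zero, one_mul, mul_x, mul_y, mul_z, mul_p, mul_q]
    refine ⟨by ring, by ring, by norm_num, by norm_num⟩

theorem trivial_rotation (φ : Gp ≃* Gp) {g : Gp} (hp : g.p = 1) (hq : g.q = 0) (hne : g.x ≠ 0 ∨ g.y ≠ 0) :
    (φ g).p = 1 ∧ (φ g).q = 0 := by
  by_contra h
  have h1 := pow_four_central h
  have h2 : ∀ k, g ^ 4 * k = k * g ^ 4 := by
    intro k
    apply φ.injective
    rw [map_mul, map_mul, map_pow]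
    exact h1 _
  rw [central_iff, eq_el hp hq, pow_el] at h2
  simp [el] at h2
  rcases hne with h3 | h3
  · exact h3 h2.1
  · exact h3 h2.2

theorem Z_zpow (t : ℤ) : Z ^ t = el 0 0 t := by
  have h : ∀ n : ℕ, Z ^ n = el 0 0 n := by
    intro n
    have : Z = el 0 0 1 := rfl
    rw [this, pow_el]; simp
  cases t with
  | ofNat n => 
    change Z ^ (n : ℤ) = _
    rw [zpow_natCast, h]; rfl
  | negSucc n =>
    rw [zpow_negSucc, h]
    ext <;> simp [el]
    rw [Int.negSucc_eq]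
    ring

/-- The element `X ^ a Y ^ b Z ^ r`. -/
def E (a b r : ℕ) : Gp := X ^ a * Y ^ b * Z ^ r

theorem E_eq (a b r : ℕ) : E a b r = el a b (r + a * b) := by
  have hX : X = el 1 0 0 := rfl
  have hY : Y = el 0 1 0 := rfl
  have hZ : Z = el 0 0 1 := rfl
  rw [E, hX, hY, hZ, pow_el, pow_el, pow_el, el_mul, el_mul]
  congr 1
  · ring
  · ring
  · ring

theorem aut_inj (φ : Gp ≃* Gp) {a b r a' b' r' : ℕ} (hb : 0 < b) (hba : b < a) (hr : r < Nat.gcd a b)
    (hb' : 0 < b') (hba' : b' < a') (hr' : r' < Nat.gcd a' b') (h : φ (E a b r) = E a' b' r') :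
    a = a' ∧ b = b' ∧ r = r' := by
  -- image of the generators
  obtain ⟨hXp, hXq⟩ := trivial_rotation φ (g := X) rfl rfl (Or.inl one_ne_zero)
  obtain ⟨hYp, hYq⟩ := trivial_rotation φ (g := Y) rfl rfl (Or.inr one_ne_zero)
  set a1 := (φ X).x with ha1
  set a2 := (φ X).y with ha2
  set a3 := (φ X).z with ha3
  set b1 := (φ Y).x with hb1
  set b2 := (φ Y).y with hb2
  set b3 := (φ Y).z with hb3
  have hφX : φ X = el a1 a2 a3 := eq_el hXp hXq
  have hφY : φ Y = el b1 b2 b3 := eq_el hYp hYq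
  -- the centre
  have hZc : ∀ k, Z * k = k * Z := (central_iff Z).2 ⟨rfl, rfl, rfl, rfl⟩
  have hφZc : ∀ k, φ Z * k = k * φ Z := by
    intro k
    have := congrArg φ (hZc (φ.symm k))
    rwa [map_mul, map_mul, φ.apply_symm_apply] at this
  obtain ⟨z1, z2, z3, z4⟩ := (central_iff _).1 hφZc
  set ε := (φ Z).z with hε
  have hφZ : φ Z = el 0 0 ε := by
    have := eq_el z3 z4
    rwa [z1, z2] at this
  have hunit : ∃ t : ℤ, ε * t = 1 := by
    have h1 : ∀ k, φ.symm Z * k = k * φ.symm Z := by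
      intro k
      have := congrArg φ.symm (hZc (φ k))
      rwa [map_mul, map_mul, φ.symm_apply_apply] at this
    obtain ⟨w1, w2, w3, w4⟩ := (central_iff _).1 h1
    have h2 : φ.symm Z = Z ^ (φ.symm Z).z := by
      rw [Z_zpow]
      have := eq_el w3 w4
      rwa [w1, w2] at this
    have h3 : Z = (φ Z) ^ (φ.symm Z).z := by
      rw [← map_zpow, ← h2, φ.apply_symm_apply]
    have h4 : ∀ t : ℤ, (el 0 0 ε) ^ t = el 0 0 (ε * t) := by
      intro t
      have h5 : el 0 0 ε = Z ^ ε := (Z_zpow ε).symm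
      rw [h5, ← zpow_mul, Z_zpow]
    rw [hφZ, h4] at h3
    exact ⟨_, (congrArg Gp.z h3).symm⟩
  -- rotation relation
  have hRX : R * X = Y * R := by ext <;> simp [R, X, Y]
  have h1 := congrArg φ hRX
  rw [map_mul, map_mul, hφX, hφY] at h1
  have h2 := congrArg Gp.x h1
  have h3 := congrArg Gp.y h1
  simp [el] at h2 h3
  set s1 := (φ R).p with hs1
  set s2 := (φ R).q with hs2
  have hs : s1 ^ 2 + s2 ^ 2 = 1 := (φ R).h
  have hb1' : b1 = s1 * a1 - s2 * a2 := by linarith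
  have hb2' : b2 = s2 * a1 + s1 * a2 := by linarith
  -- commutator relation
  have hXY : X * Y = Y * X * (Z * Z) := by ext <;> simp [X, Y, Z]
  have h4 := congrArg φ hXY
  rw [map_mul, map_mul, map_mul, map_mul, hφX, hφY, hφZ, el_mul, el_mul, el_mul, el_mul] at h4
  have h5 := congrArg Gp.z h4
  simp [el] at h5
  have hdet : a1 * b2 - a2 * b1 = ε := by linarith
  have hdet2 : s2 * (a1 ^ 2 + a2 ^ 2) = ε := by rw [← hdet, hb1', hb2']; ring
  obtain ⟨t, ht⟩ := hunit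
  have hdiv : (a1 ^ 2 + a2 ^ 2) ∣ 1 := ⟨s2 * t, by rw [← ht, ← hdet2]; ring⟩
  have hnorm : a1 ^ 2 + a2 ^ 2 = 1 := by
    rcases Int.isUnit_iff.1 (isUnit_of_dvd_one hdiv) with h | h
    · exact h
    · nlinarith [sq_nonneg a1, sq_nonneg a2]
  have hs2' : s2 = ε := by rw [← hdet2, hnorm, mul_one]
  -- image of E
  have hE : φ (E a b r) = el (a * a1 + b * b1) (a * a2 + b * b2)
      (a * a3 + b * b3 + a * b * ε + r * ε) := by
    rw [E, map_mul, map_mul, map_pow, map_pow, map_pow, hφX, hφY, hφZ, pow_el, pow_el, pow_el, el_mul, el_mul]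
    congr 1
    · ring
    · ring
    · rw [← hdet]; ring
  rw [hE, E_eq] at h
  have e1 := congrArg Gp.x h
  have e2 := congrArg Gp.y h
  have e3 := congrArg Gp.z h
  simp [el] at e1 e2 e3
  have hbz : (0 : ℤ) < b := by exact_mod_cast hb
  have hbaz : (b : ℤ) < a := by exact_mod_cast hba
  have hbz' : (0 : ℤ) < b' := by exact_mod_cast hb'
  have hbaz' : (b' : ℤ) < a' := by exact_mod_cast hba'
  have hmain : a1 = 1 ∧ a2 = 0 ∧ s1 = 0 ∧ s2 = 1 := by
    have hεsq : ε = 1 ∨ ε = -1 := by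
      rcases Int.isUnit_iff.1 (isUnit_of_dvd_one ⟨t, ht.symm⟩) with h | h
      · exact Or.inl h
      · exact Or.inr h
    have f1 : (a : ℤ) * a1 + b * (s1 * a1 - s2 * a2) = a' := by rw [← hb1']; exact e1
    have f2 : (a : ℤ) * a2 + b * (s2 * a1 + s1 * a2) = b' := by rw [← hb2']; exact e2
    have hbad : ∀ u1 u2 v1 v2 : ℤ, s1 = u1 → s2 = u2 → a1 = v1 → a2 = v2 →
        ((u1 = 0 ∧ u2 = 1 ∧ ((v1 = 0 ∧ v2 = 1) ∨ (v1 = -1 ∧ v2 = 0) ∨ (v1 = 0 ∧ v2 = -1))) ∨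
          (u1 = 0 ∧ u2 = -1 ∧ ((v1 = 1 ∧ v2 = 0) ∨ (v1 = 0 ∧ v2 = 1) ∨ (v1 = -1 ∧ v2 = 0) ∨ (v1 = 0 ∧ v2 = -1)))) →
        False := by
      intro u1 u2 v1 v2 k1 k2 l1 l2 hh
      rw [k1, k2, l1, l2] at f1 f2
      clear * - f1 f2 hh hbz hbaz hbz' hbaz'
      rcases hh with ⟨rfl, rfl, ⟨rfl, rfl⟩ | ⟨rfl, rfl⟩ | ⟨rfl, rfl⟩⟩ | ⟨rfl, rfl, ⟨rfl, rfl⟩ | ⟨rfl, rfl⟩ | ⟨rfl, rfl⟩ | ⟨rfl, rfl⟩⟩ <;>
        ring_nf at f1 f2 <;> omega
    rcases unit_cases hs with ⟨k1, k2⟩ | ⟨k1, k2⟩ | ⟨k1, k2⟩ | ⟨k1, k2⟩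
    · exfalso; rw [k2] at hs2'; omega
    · rcases unit_cases hnorm with ⟨l1, l2⟩ | ⟨l1, l2⟩ | ⟨l1, l2⟩ | ⟨l1, l2⟩
      · exact ⟨l1, l2, k1, k2⟩
      · exfalso; exact hbad _ _ _ _ k1 k2 l1 l2 (by norm_num)
      · exfalso; exact hbad _ _ _ _ k1 k2 l1 l2 (by norm_num)
      · exfalso; exact hbad _ _ _ _ k1 k2 l1 l2 (by norm_num)
    · exfalso; rw [k2] at hs2'; omega
    · rcases unit_cases hnorm with ⟨l1, l2⟩ | ⟨l1, l2⟩ | ⟨l1, l2⟩ | ⟨l1, l2⟩
      · exfalso; exact hbad _ _ _ _ k1 k2 l1 l2 (by norm_num)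
      · exfalso; exact hbad _ _ _ _ k1 k2 l1 l2 (by norm_num)
      · exfalso; exact hbad _ _ _ _ k1 k2 l1 l2 (by norm_num)
      · exfalso; exact hbad _ _ _ _ k1 k2 l1 l2 (by norm_num)
  obtain ⟨l1, l2, k1, k2⟩ := hmain
  have hε1 : ε = 1 := by rw [← hs2', k2]
  rw [hb1', k1, k2, l1, l2] at e1
  rw [hb2', k1, k2, l1, l2] at e2
  have haa : a = a' := by simp at e1; exact_mod_cast e1
  have hbb : b = b' := by simp at e2; exact_mod_cast e2
  subst haa; subst hbb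
  refine ⟨rfl, rfl, ?_⟩
  have e4 : (r' : ℤ) - r = a * a3 + b * b3 := by rw [hε1] at e3; linarith
  have hd : ((Nat.gcd a b : ℕ) : ℤ) ∣ (r' : ℤ) - r := by
    rw [e4]
    exact dvd_add (Dvd.dvd.mul_right (by exact_mod_cast Nat.gcd_dvd_left a b) _)
      (Dvd.dvd.mul_right (by exact_mod_cast Nat.gcd_dvd_right a b) _)
  have h6 : |(r' : ℤ) - r| < (Nat.gcd a b : ℕ) := by
    rw [abs_lt]; constructor <;> omega
  have h7 := Int.eq_zero_of_abs_lt_dvd hd h6
  omega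

end Pool.Agent.X251.HeisRot
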