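import Pool.Agent.X251.HeisGen

set_option autoImplicit false

namespace Pool.Agent.X251.HeisRot

/-! ### the sum of gcd's over a box is superquadratic -/

theorem card_mult (N p : ℕ) (hp : 0 < p) (h : p ∣ N) :
    ((Finset.Ioc N (2 * N)).filter (p ∣ ·)).card = N / p := by
  obtain ⟨c, rfl⟩ := h
  have h1 : ((Finset.Ioc 0 (2 * (p * c))).filter (p ∣ ·)).card = (2 * (p * c)) / p :=
    Nat.Ioc_filter_dvd_card_eq_div _ _
  have h2 : ((Finset.Ioc 0 (p * c)).filter (p ∣ ·)).card = (p * c) / p := Nat.Ioc_filter_dvd_card_eq_div _ _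
  have h3 : (Finset.Ioc 0 (2 * (p * c))) = (Finset.Ioc 0 (p * c)) ∪ (Finset.Ioc (p * c) (2 * (p * c))) := by
    rw [Finset.Ioc_union_Ioc_eq_Ioc] <;> omega
  rw [h3, Finset.filter_union, Finset.card_union_of_disjoint, h2] at h1
  · have e1 : (p * c) / p = c := Nat.mul_div_cancel_left c hp
    have e2 : (2 * (p * c)) / p = 2 * c := by
      rw [show 2 * (p * c) = p * (2 * c) by ring]; exact Nat.mul_div_cancel_left _ hp
    rw [e1, e2] at h1
    rw [e1]; omega
  · apply Finset.disjoint_filter_filter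
    rw [Finset.disjoint_left]
    intro x hx hx'
    simp only [Finset.mem_Ioc] at hx hx'
    omega

theorem sum_gcd_ge (K : ℕ) : ((K.factorial : ℝ) ^ 2 / 2) * (∑ p ∈ K.primesBelow, (1 : ℝ) / p) ≤
    ∑ a ∈ Finset.Ioc K.factorial (2 * K.factorial), ∑ b ∈ Finset.Ioc 0 K.factorial, (Nat.gcd a b : ℝ) := by
  set N := K.factorial with hN
  have hNpos : 0 < N := Nat.factorial_pos K
  have h1 : ∀ a ∈ Finset.Ioc N (2 * N), ∀ b ∈ Finset.Ioc 0 N,
      (∑ p ∈ K.primesBelow, if p ∣ a ∧ p ∣ b then ((p : ℝ) / 2) else 0) ≤ (Nat.gcd a b : ℝ) := by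
    intro a ha b hb
    have hg : 0 < Nat.gcd a b := Nat.gcd_pos_of_pos_right _ (Finset.mem_Ioc.1 hb).1
    rw [← Finset.sum_filter]
    have h2 : ((Nat.gcd a b : ℕ) : ℝ) = ∑ d ∈ (Nat.gcd a b).divisors, (Nat.totient d : ℝ) := by
      rw [← Nat.cast_sum, Nat.sum_totient]
    rw [h2]
    calc (∑ p ∈ K.primesBelow.filter (fun p => p ∣ a ∧ p ∣ b), ((p : ℝ) / 2))
        ≤ ∑ p ∈ K.primesBelow.filter (fun p => p ∣ a ∧ p ∣ b), (Nat.totient p : ℝ) := by
          apply Finset.sum_le_sum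
          intro p hp
          have hpp : p.Prime := Nat.prime_of_mem_primesBelow (Finset.mem_filter.1 hp).1
          rw [Nat.totient_prime hpp, Nat.cast_sub hpp.one_le]
          have := hpp.two_le
          have h3 : (2 : ℝ) ≤ p := by exact_mod_cast this
          push_cast; linarith
      _ ≤ _ := by
          apply Finset.sum_le_sum_of_subset_of_nonneg
          · intro p hp
            rw [Finset.mem_filter] at hp
            rw [Nat.mem_divisors]
            exact ⟨Nat.dvd_gcd hp.2.1 hp.2.2, hg.ne'⟩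
          · intros; positivity
  have h4 : ∑ a ∈ Finset.Ioc N (2 * N), ∑ b ∈ Finset.Ioc 0 N,
      (∑ p ∈ K.primesBelow, if p ∣ a ∧ p ∣ b then ((p : ℝ) / 2) else 0) =
      ∑ p ∈ K.primesBelow, ((N : ℝ) ^ 2 / 2) * (1 / p) := by
    have h5 : ∀ a ∈ Finset.Ioc N (2 * N), (∑ b ∈ Finset.Ioc 0 N,
      (∑ p ∈ K.primesBelow, if p ∣ a ∧ p ∣ b then ((p : ℝ) / 2) else 0)) =
      ∑ p ∈ K.primesBelow, ∑ b ∈ Finset.Ioc 0 N, (if p ∣ a ∧ p ∣ b then ((p : ℝ) / 2) else 0) :=
      fun a _ => Finset.sum_comm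
    rw [Finset.sum_congr rfl h5, Finset.sum_comm]
    apply Finset.sum_congr rfl
    intro p hp
    have hpp : p.Prime := Nat.prime_of_mem_primesBelow hp
    have hpK : p < K := Nat.lt_of_mem_primesBelow hp
    have hpN : p ∣ N := Nat.dvd_factorial hpp.pos hpK.le
    have h6 : ∀ a ∈ Finset.Ioc N (2 * N), (∑ b ∈ Finset.Ioc 0 N, (if p ∣ a ∧ p ∣ b then ((p : ℝ) / 2) else 0)) =
        if p ∣ a then ((N / p : ℕ) : ℝ) * ((p : ℝ) / 2) else 0 := by
      intro a _
      by_cases ha : p ∣ a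
      · simp only [ha, true_and, if_true]
        rw [← Finset.sum_filter, Finset.sum_const, Nat.Ioc_filter_dvd_card_eq_div, nsmul_eq_mul]
      · simp [ha]
    rw [Finset.sum_congr rfl h6, ← Finset.sum_filter, Finset.sum_const, card_mult N p hpp.pos hpN, nsmul_eq_mul,
      Nat.cast_div hpN (by exact_mod_cast hpp.ne_zero)]
    have : (p : ℝ) ≠ 0 := by exact_mod_cast hpp.ne_zero
    field_simp
  rw [Finset.mul_sum, ← h4]
  exact Finset.sum_le_sum fun a ha => Finset.sum_le_sum fun b hb => h1 a ha b hb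

theorem primes_unbounded (M : ℝ) : ∃ K : ℕ, 1 ≤ K ∧ M ≤ ∑ p ∈ K.primesBelow, (1 : ℝ) / p := by
  by_contra hcon
  push Not at hcon
  apply not_summable_one_div_on_primes
  apply summable_of_sum_range_le (c := M)
  · intro n
    exact Set.indicator_nonneg (fun x _ => by positivity) n
  · intro n
    rcases Nat.eq_zero_or_pos n with rfl | hn
    · simp
      have := hcon 1 le_rfl
      have h0 : (Nat.primesBelow 1) = ∅ := by decide
      rw [h0] at this
      simpa using this.le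
    · refine le_trans (le_of_eq ?_) (hcon n hn).le
      rw [Nat.primesBelow, Finset.sum_filter]
      apply Finset.sum_congr rfl
      intro i _
      simp [Set.indicator_apply]

end Pool.Agent.X251.HeisRot
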