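import Pool.Agent.X251.HeisGen

set_option autoImplicit false

namespace Pool.Agent.X251.HeisRot

open Gp

/-- bounded coordinates -/
def Bd (m k : ℤ) (g : Gp) : Prop := |g.x| ≤ m ∧ |g.y| ≤ m ∧ |g.z| ≤ k

theorem rot_le {p q u v m : ℤ} (h : p ^ 2 + q ^ 2 = 1) (hu : |u| ≤ m) (hv : |v| ≤ m) :
    |p * u - q * v| ≤ m ∧ |q * u + p * v| ≤ m ∧ |p * u + q * v| ≤ m ∧ |-q * u + p * v| ≤ m := by
  rcases unit_cases h with ⟨rfl, rfl⟩ | ⟨rfl, rfl⟩ | ⟨rfl, rfl⟩ | ⟨rfl, rfl⟩ <;> simp [hu, hv]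

theorem Bd.mul {m k m' k' : ℤ} {a b : Gp} (ha : Bd m k a) (hb : Bd m' k' b) :
    Bd (m + m') (k + k' + 2 * m * m') (a * b) := by
  obtain ⟨a1, a2, a3⟩ := ha
  obtain ⟨b1, b2, b3⟩ := hb
  obtain ⟨r1, r2, _, _⟩ := rot_le a.h b1 b2
  refine ⟨?_, ?_, ?_⟩
  · rw [mul_x]; exact (abs_add_le _ _).trans (add_le_add a1 r1)
  · rw [mul_y]; exact (abs_add_le _ _).trans (add_le_add a2 r2)
  · rw [mul_z]
    have h1 : |a.x * (a.q * b.x + a.p * b.y)| ≤ m * m' := by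
      rw [abs_mul]; exact mul_le_mul a1 r2 (abs_nonneg _) ((abs_nonneg _).trans a1)
    have h2 : |a.y * (a.p * b.x - a.q * b.y)| ≤ m * m' := by
      rw [abs_mul]; exact mul_le_mul a2 r1 (abs_nonneg _) ((abs_nonneg _).trans a2)
    have h3 := abs_add_le (a.z + b.z) (a.x * (a.q * b.x + a.p * b.y) - a.y * (a.p * b.x - a.q * b.y))
    have h4 := abs_add_le a.z b.z
    have h5 := abs_sub (a.x * (a.q * b.x + a.p * b.y)) (a.y * (a.p * b.x - a.q * b.y))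
    linarith

theorem Bd.inv {m k : ℤ} {a : Gp} (ha : Bd m k a) : Bd m k a⁻¹ := by
  obtain ⟨a1, a2, a3⟩ := ha
  obtain ⟨_, _, r1, r2⟩ := rot_le a.h a1 a2
  refine ⟨?_, ?_, ?_⟩
  · rw [inv_x, abs_neg]; exact r1
  · rw [inv_y, abs_neg]; exact r2
  · rw [inv_z, abs_neg]; exact a3

theorem Bd.mono {m k m' k' : ℤ} {a : Gp} (ha : Bd m k a) (h1 : m ≤ m') (h2 : k ≤ k') : Bd m' k' a :=
  ⟨ha.1.trans h1, ha.2.1.trans h1, ha.2.2.trans h2⟩

theorem exists_bd (S : Finset Gp) : ∃ B : ℕ, 1 ≤ B ∧ ∀ g ∈ S, Bd B B g := by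
  classical
  induction S using Finset.induction_on with
  | empty => exact ⟨1, le_rfl, by simp⟩
  | insert a S _ ih =>
    obtain ⟨B, hB, h⟩ := ih
    refine ⟨B + a.x.natAbs + a.y.natAbs + a.z.natAbs, by omega, ?_⟩
    intro g hg
    rcases Finset.mem_insert.1 hg with rfl | hg
    · refine ⟨?_, ?_, ?_⟩ <;> · rw [Int.abs_eq_natAbs]; exact_mod_cast (by omega)
    · refine (h g hg).mono ?_ ?_ <;> exact_mod_cast (by omega)

theorem ball_bd {S : Finset Gp} {B : ℕ} (hB : 1 ≤ B) (h : ∀ g ∈ S, Bd B B g) (n : ℕ) (g : Gp)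
    (hg : LenLE S n g) : Bd (B * n : ℕ) ((B * n : ℕ) ^ 2 + (B * n : ℕ)) g := by
  obtain ⟨l, h1, h2, rfl⟩ := hg
  have key : ∀ l : List Gp, (∀ x ∈ l, x ∈ S ∨ x⁻¹ ∈ S) →
      Bd (B * l.length : ℕ) ((B * l.length : ℕ) ^ 2 + (B * l.length : ℕ)) l.prod := by
    intro l
    induction l with
    | nil => intro _; exact ⟨by simp, by simp, by simp⟩
    | cons a l ih =>
      intro hl
      have ih' := ih (fun x hx => hl x (List.mem_cons_of_mem _ hx))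
      have ha : Bd B B a := by
        rcases hl a List.mem_cons_self with h3 | h3
        · exact h a h3
        · have := (h _ h3).inv
          rwa [inv_inv] at this
      rw [List.prod_cons]
      refine (ha.mul ih').mono ?_ ?_
      · push_cast [List.length_cons]; linarith
      · push_cast [List.length_cons]
        have : (0 : ℤ) ≤ (B : ℤ) ^ 2 := by positivity
        nlinarith
  refine (key l h2).mono ?_ ?_
  · exact_mod_cast Nat.mul_le_mul_left B h1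
  · have : ((B * l.length : ℕ) : ℤ) ≤ (B * n : ℕ) := by exact_mod_cast Nat.mul_le_mul_left B h1
    have h0 : (0 : ℤ) ≤ ((B * l.length : ℕ) : ℤ) := by positivity
    nlinarith

/-- rotations: representative set -/
noncomputable def F3 (m : ℕ) : Finset Gp := by
  classical
  exact (Finset.range 2 ×ˢ Finset.range 2 ×ˢ Finset.Icc (-(9 * ((m : ℤ) + 1) ^ 2)) (9 * ((m : ℤ) + 1) ^ 2) ×ˢ
    Finset.range 4).image (fun t => el (t.1 : ℤ) (t.2.1 : ℤ) t.2.2.1 * R ^ t.2.2.2)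

theorem R_pow_cases {p q : ℤ} (h : p ^ 2 + q ^ 2 = 1) : ∃ i ∈ Finset.range 4, (R ^ i).x = 0 ∧ (R ^ i).y = 0 ∧
    (R ^ i).z = 0 ∧ (R ^ i).p = p ∧ (R ^ i).q = q := by
  rcases unit_cases h with ⟨rfl, rfl⟩ | ⟨rfl, rfl⟩ | ⟨rfl, rfl⟩ | ⟨rfl, rfl⟩
  · exact ⟨0, by simp, by simp⟩
  · exact ⟨1, by simp, by simp [R]⟩
  · exact ⟨2, by simp, by simp [R, pow_succ]⟩
  · exact ⟨3, by simp, by simp [R, pow_succ]⟩

theorem mem_F3 {m : ℕ} {g : Gp} (hx : g.x = 0 ∨ g.x = 1) (hy : g.y = 0 ∨ g.y = 1)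
    (hz : |g.z| ≤ 9 * ((m : ℤ) + 1) ^ 2) : g ∈ F3 m := by
  classical
  obtain ⟨i, hi, h1, h2, h3, h4, h5⟩ := R_pow_cases g.h
  rw [F3, Finset.mem_image]
  have hx' : ((g.x.toNat : ℕ) : ℤ) = g.x := Int.toNat_of_nonneg (by omega)
  have hy' : ((g.y.toNat : ℕ) : ℤ) = g.y := Int.toNat_of_nonneg (by omega)
  refine ⟨(g.x.toNat, g.y.toNat, g.z, i), ?_, ?_⟩
  · simp only [Finset.mem_product, Finset.mem_range, Finset.mem_Icc]
    rw [abs_le] at hz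
    refine ⟨by omega, by omega, hz, by simpa using hi⟩
  · ext
    · simp [el, h1, hx']
    · simp [el, h2, hy']
    · simp [el, h1, h2, h3]
    · simp [el, h4]
    · simp [el, h5]

theorem card_F3 (m : ℕ) : (F3 m).card ≤ 304 * (m + 1) ^ 2 := by
  classical
  refine Finset.card_image_le.trans ?_
  simp only [Finset.card_product, Finset.card_range, Int.card_Icc]
  have : (9 * ((m : ℤ) + 1) ^ 2 + 1 - -(9 * ((m : ℤ) + 1) ^ 2)).toNat = 18 * (m + 1) ^ 2 + 1 := by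
    have h2 : (9 * ((m : ℤ) + 1) ^ 2 + 1 - -(9 * ((m : ℤ) + 1) ^ 2)) = ((18 * (m + 1) ^ 2 + 1 : ℕ) : ℤ) := by
      push_cast; ring
    rw [h2]; exact Int.toNat_natCast _
  rw [this]
  nlinarith [Nat.one_le_pow 2 (m + 1) (by omega)]

/-- translations: representative set -/
noncomputable def F1 (m : ℕ) : Finset Gp := by
  classical
  exact (Finset.Icc 1 m).biUnion (fun d => (Finset.Icc (-((m / d : ℕ) : ℤ)) (m / d : ℕ) ×ˢ
    Finset.Icc (-((m / d : ℕ) : ℤ)) (m / d : ℕ) ×ˢ Finset.range (2 * d)).image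
      (fun t => el (d * t.1) (d * t.2.1) t.2.2))

theorem card_F1 (m : ℕ) : ((F1 m).card : ℝ) ≤ 18 * (m : ℝ) ^ 2 * ∑ d ∈ Finset.Icc 1 m, (1 : ℝ) / d := by
  classical
  have h1 : (F1 m).card ≤ ∑ d ∈ Finset.Icc 1 m, (2 * (m / d) + 1) ^ 2 * (2 * d) := by
    refine Finset.card_biUnion_le.trans ?_
    apply Finset.sum_le_sum
    intro d hd
    refine Finset.card_image_le.trans ?_
    simp only [Finset.card_product, Finset.card_range, Int.card_Icc]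
    have : (((m / d : ℕ) : ℤ) + 1 - -((m / d : ℕ) : ℤ)).toNat = 2 * (m / d) + 1 := by
      omega
    rw [this]
    apply le_of_eq; ring
  have h2 : ((F1 m).card : ℝ) ≤ ∑ d ∈ Finset.Icc 1 m, (((2 * (m / d) + 1) ^ 2 * (2 * d) : ℕ) : ℝ) := by
    rw [← Nat.cast_sum]; exact_mod_cast h1
  refine h2.trans ?_
  rw [Finset.mul_sum]
  apply Finset.sum_le_sum
  intro d hd
  rw [Finset.mem_Icc] at hd
  have hd0 : (0 : ℝ) < d := by exact_mod_cast hd.1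
  have h3 : ((m / d : ℕ) : ℝ) ≤ (m : ℝ) / d := Nat.cast_div_le
  have h4 : (1 : ℝ) ≤ (m : ℝ) / d := by
    rw [le_div_iff₀ hd0]; simpa using (by exact_mod_cast hd.2 : (d : ℝ) ≤ m)
  have h5 : (0 : ℝ) ≤ ((m / d : ℕ) : ℝ) := by positivity
  have h6 : (2 * ((m / d : ℕ) : ℝ) + 1) ≤ 3 * ((m : ℝ) / d) := by linarith
  have h7 : (2 * ((m / d : ℕ) : ℝ) + 1) ^ 2 ≤ (3 * ((m : ℝ) / d)) ^ 2 := pow_le_pow_left₀ (by positivity) h6 2
  push_cast
  calc (2 * ((m / d : ℕ) : ℝ) + 1) ^ 2 * (2 * d) ≤ (3 * ((m : ℝ) / d)) ^ 2 * (2 * d) :=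
        mul_le_mul_of_nonneg_right h7 (by positivity)
    _ = 18 * (m : ℝ) ^ 2 * (1 / d) := by field_simp; ring

end Pool.Agent.X251.HeisRot
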